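import Pool.Agent.Helper37_CAP.Stmts

/-!
# Squad CAP (MP_a03075_co): module CBD
-/

set_option autoImplicit false

open Finset

namespace Pool.Agent.CAP.H20

theorem cbd (h1 : CNT) (h2 : SMO) : CBD := by
  classical
  obtain ⟨-, hor, -, -, -, -⟩ := h1
  obtain ⟨C, hC, h⟩ := h2
  refine ⟨12 * C, by positivity, fun z X hz hX => ?_⟩
  have hY : 8 ≤ z ^ 12 := by
    calc 8 ≤ 2 ^ 12 := by norm_num
      _ ≤ z ^ 12 := Nat.pow_le_pow_left hz 12
  have hlogY : Real.log ((z ^ 12 : ℕ) : ℝ) = 12 * Real.log z := by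
    push_cast
    rw [Real.log_pow]
    norm_num
  have hlz : 0 < Real.log z := Real.log_pos (by exact_mod_cast hz)
  have hA : cnt (fun n => Smooth (z ^ 12) (n + 1)) X ≤ cnt (Smooth (z ^ 12)) (X + 1) := by
    unfold cnt
    apply Finset.card_le_card_of_injOn (fun n => n + 1)
    · intro n hn
      rw [Finset.mem_coe, Finset.mem_filter, Finset.mem_Icc] at hn
      rw [Finset.mem_coe, Finset.mem_filter, Finset.mem_Icc]
      refine ⟨⟨?_, ?_⟩, hn.2⟩
      · show 1 ≤ n + 1
        omega
      · show n + 1 ≤ X + 1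
        omega
    · intro a _ b _ hab
      exact Nat.succ_injective hab
  have hB : cnt (fun n => Smooth (z ^ 12) (n - 1)) X ≤ cnt (Smooth (z ^ 12)) X := by
    unfold cnt
    have hne : ∀ n, n ∈ (Finset.Icc 1 X).filter (fun n => Smooth (z ^ 12) (n - 1)) → 2 ≤ n := by
      intro n hn
      rw [Finset.mem_filter, Finset.mem_Icc] at hn
      by_contra hlt
      have h1 : n = 1 := by omega
      rw [h1] at hn
      obtain ⟨q, hq, hqp⟩ := Nat.exists_infinite_primes (z ^ 12 + 1)
      have := hn.2 q hqp (dvd_zero q)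
      omega
    apply Finset.card_le_card_of_injOn (fun n => n - 1)
    · intro n hn
      have h2 := hne n hn
      rw [Finset.mem_coe, Finset.mem_filter, Finset.mem_Icc] at hn
      rw [Finset.mem_coe, Finset.mem_filter, Finset.mem_Icc]
      refine ⟨⟨?_, ?_⟩, hn.2⟩
      · show 1 ≤ n - 1
        omega
      · show n - 1 ≤ X
        omega
    · intro a ha b hb hab
      have h2 := hne a ha
      have h3 := hne b hb
      have hab' : a - 1 = b - 1 := hab
      omega
  have hX0 : (1 : ℝ) ≤ X := by exact_mod_cast hX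
  have e1 := h (X + 1) (z ^ 12) (by omega) hY
  have e2 := h X (z ^ 12) hX hY
  rw [hlogY] at e1 e2
  have e3 : ((cnt (Smooth (z ^ 12)) (X + 1) : ℕ) : ℝ) ≤
      2 * X * Real.exp (12 * C * Real.log z - Real.log X / (12 * Real.log z)) := by
    refine e1.trans ?_
    have hx1 : (((X + 1 : ℕ) : ℝ)) ≤ 2 * X := by push_cast; linarith
    have hx2 : C * (12 * Real.log z) - Real.log ((X + 1 : ℕ) : ℝ) / (12 * Real.log z) ≤
        12 * C * Real.log z - Real.log X / (12 * Real.log z) := by
      have : Real.log X / (12 * Real.log z) ≤ Real.log ((X + 1 : ℕ) : ℝ) / (12 * Real.log z) := by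
        apply div_le_div_of_nonneg_right _ (by positivity)
        apply Real.log_le_log (by linarith)
        push_cast; linarith
      linarith
    exact mul_le_mul hx1 (Real.exp_le_exp.2 hx2) (Real.exp_pos _).le (by positivity)
  have e4 : ((cnt (Smooth (z ^ 12)) X : ℕ) : ℝ) ≤
      X * Real.exp (12 * C * Real.log z - Real.log X / (12 * Real.log z)) := by
    refine e2.trans (le_of_eq ?_)
    congr 2
    ring
  have e5 : cnt (E4 z) X ≤ cnt (Smooth (z ^ 12)) (X + 1) + cnt (Smooth (z ^ 12)) X :=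
    (hor (fun n => Smooth (z ^ 12) (n + 1)) (fun n => Smooth (z ^ 12) (n - 1)) X).trans
      (Nat.add_le_add hA hB)
  have e6 : ((cnt (E4 z) X : ℕ) : ℝ) ≤
      ((cnt (Smooth (z ^ 12)) (X + 1) : ℕ) : ℝ) + ((cnt (Smooth (z ^ 12)) X : ℕ) : ℝ) := by
    exact_mod_cast e5
  linarith

end Pool.Agent.CAP.H20
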